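import Pool.Agent.H57.SWC.Cha
import Pool.Agent.H57.W1.H91.FR.QpG
import Pool.Agent.H57.W1.H57.SWC.Cgq

/-!
# Free velocities and entropy fields of the swapped list, for the exponents over all places

`aeSv_fa`: the property `Pool.W.LA91.FaQ` at almost every window for the swapped list.
-/

set_option autoImplicit false

namespace Pool.W.SWP

open Finset Real MvPolynomial MeasureTheory
open Pool.Agent.H49.Ent Pool.Agent.H32.Dense Pool.STK Pool.KA Pool.KSAT Pool.K2S Pool.PB Pool.GEN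
open Pool.S6C Pool.GRW Pool.RCD Pool.PKG Pool.LA91 Pool.V0F Pool.ALT
open Pool.CHT
open Pool.TOP (TopS)
open Pool.SWP

/-- **Free velocities and entropy fields** of the swapped list. -/
theorem aeSv_fa {n k : ℕ} (hk : k + 1 < n - 1) : AeSv n k
    (Pool.W.LA91.FaQ : PropG n (ℕ × ℕ × ℚ × ℚ)) := by
  intro hn S P r P' Λ PB PQ H hTop hF o G hG hGs hsw
  obtain ⟨al, g₀, s, d', e', K₁, N₁, hal, hg₀, hC⟩ := H.cl
  have htm : TmC S 6 := Pool.GEN.N83.clx_tmc hC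
  have hM : Bas S (fun J F A => (cnt F.p (ptr F J) A : ℝ) ≤ Real.exp ((4 * n + 1) * J)) :=
    Bas.mono 0 hC.cnt fun J _ F A h => h J le_rfl
  have hW : ∀ d < n, ChG S (fun l => cc hn o.1.1 (sw k l)) d
      (fun l w => LvL hn P P' o (sw k l) w w) G :=
    fun d hd => gs_chG_sw H.toPk hTop hF hGs (fun _ _ _ _ h => h) hk hsw (by omega)
  obtain ⟨S₁, a1, a2, η, hη⟩ := rnum_ptr hC.ne hC.pos hM
  obtain ⟨S₂, b1, b2, b3⟩ := Pool.W.LA91.fa_tl_le (A := 0) a1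
    (fun τ J F A h => hC.pos τ J F A (a2 τ J F A h))
    (fun τ J F A hτ h => htm τ J F A hτ (a2 τ J F A h)) (hM.sub a2) hG le_rfl n
    fun d hd => (hW d hd).sub a2
  refine ⟨S₂, b1, fun τ J F A h => a2 τ J F A (b2 τ J F A h), ?_⟩
  filter_upwards [b3, H.toPkT.dia_all H.pble hTop hF] with g h1 hdia hg κ hκ p
  have ho := hGs hg
  obtain ⟨α, Q, c', F⟩ := H.toPk.fac hTop hF ho
  have key : p.1 < n → (∀ l < p.1, κ (sw k l) = .one) → 0 < p.2.2.1 → p.2.2.1 ≤ 1 →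
      0 < p.2.2.2 → ∃ K : ℕ, ∀ k' ≥ K,
        FreeAt S₂ (fun J F => ptr F J) (fun _ F => F.W) (fun l => cc hn o.1.1 (sw k l)) p.1
          (fun l w => LvL hn P P' o (sw k l) w w) G g p.2.1 p.2.2.1 p.2.2.2 k' ∧
        FreeNx S₂ (fun J F => ptr F J) (fun _ F => F.W) (fun l => cc hn o.1.1 (sw k l)) p.1
          (fun l w => LvL hn P P' o (sw k l) w w) G g p.2.1 p.2.2.1 p.2.2.2 k' ∧
        Pool.W.LA91.TlAt S₂ (fun l => cc hn o.1.1 (sw k l)) p.1 (fun l w => LvL hn P P' o (sw k l) w w) G g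
          p.2.1 p.2.2.1 p.2.2.2 k' := by
    intro hp hone hσ0 hσ1 hκ0
    refine h1 ⟨F.g0, F.g1⟩ hg p.1 hp (fun i hi => ?_) p.2.1 p.2.2.1 hσ0 hσ1 p.2.2.2
      (by exact_mod_cast hκ0)
    have hi' : sw k i ≤ n - 1 := sw_lt_n hk (by omega)
    have h2 := hκ (sw k i) (by omega)
    rw [hone i hi] at h2
    have h3 : deriv (fun a => LvL hn P P' o (sw k i) a a) g = 1 := h2
    have h4 := (hdia o ho (sw k i) hi').1.hasDerivAt
    rw [h3] at h4
    have h5 := h4.sub (hasDerivAt_id g)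
    rw [sub_self] at h5
    exact h5.hasDerivWithinAt
  by_cases hall : p.1 < n ∧ (∀ l < p.1, κ (sw k l) = .one) ∧ 0 < p.2.2.1 ∧ p.2.2.1 ≤ 1 ∧
      0 < p.2.2.2
  · obtain ⟨K, hK⟩ := key hall.1 hall.2.1 hall.2.2.1 hall.2.2.2.1 hall.2.2.2.2
    exact ⟨K, ⟨η, fun w => (hη w).sub b2⟩, fun d hd => ((hW d hd).sub a2).sub b2,
      fun _ _ _ _ _ k hk => (hK k hk).1, fun _ _ _ _ _ k hk => (hK k hk).2.1,
      fun _ _ _ _ _ k hk => (hK k hk).2.2⟩
  · exact ⟨0, ⟨η, fun w => (hη w).sub b2⟩, fun d hd => ((hW d hd).sub a2).sub b2,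
      fun e1 e2 e3 e4 e5 => absurd ⟨e1, e2, e3, e4, e5⟩ hall,
      fun e1 e2 e3 e4 e5 => absurd ⟨e1, e2, e3, e4, e5⟩ hall,
      fun e1 e2 e3 e4 e5 => absurd ⟨e1, e2, e3, e4, e5⟩ hall⟩

end Pool.W.SWP
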